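import Pool.Agent.R572.DefectC

set_option autoImplicit false

/-!
# The infinite defect of a finite word is computable

Words are lists of natural numbers (so every finite alphabet is covered).  An infinite word is a
function `z : ℤ → ℕ` looked at on one of the index sets `ℤ₊ = {0, 1, ...}` (right-infinite words),
`ℤ₋ = {..., -2, -1}` (left-infinite words) and `ℤ` (two-way infinite words).

Idea of the proof.  If a long palindrome `P` occurs twice in an infinite word of finite defect, far
enough from the part in which the defect arises, then the factor between two consecutive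
occurrences is a palindrome, and continuing it periodically creates no further defect; such a `P`
always exists.  So an infinite extension of least defect can be taken ultimately periodic, hence
found by a search, while its absence is recognized by compactness.
-/

namespace Pool.Agent.Results.MP_a1720d_lc.DefectComputable

/-- The palindromic factors of the finite word `w` (the empty word included). -/
def palFactors (w : List ℕ) : Set (List ℕ) := {p | p <:+: w ∧ p.reverse = p}

/-- The defect `D(w) = |w| + 1 - |Pal(w)|` of a finite word. -/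
noncomputable def defect (w : List ℕ) : ℕ := w.length + 1 - (palFactors w).ncard

/-- The index sets of right-infinite, left-infinite and two-way infinite words. -/
def indexSets : Set (Set ℤ) := {Set.Ici 0, Set.Iio 0, Set.univ}

/-- `u` is a factor of the word `z` indexed by `I`. -/
def IsFactor (I : Set ℤ) (z : ℤ → ℕ) (u : List ℕ) : Prop :=
  ∃ i : ℤ, ∀ (j : ℕ) (h : j < u.length), i + j ∈ I ∧ u[j] = z (i + j)

/-- The defect of the word `z` indexed by `I`: the supremum of the defects of its finite factors
(`⊤` if they are unbounded). -/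
noncomputable def wordDefect (I : Set ℤ) (z : ℤ → ℕ) : ℕ∞ :=
  ⨆ u ∈ {u : List ℕ | IsFactor I z u}, (defect u : ℕ∞)

/-- The infinite defect `D_∞(w)`: the least defect of an infinite word having `w` as a factor and
all its letters among those of `w`. -/
noncomputable def infiniteDefect (w : List ℕ) : ℕ∞ :=
  sInf {d | ∃ I ∈ indexSets, ∃ z : ℤ → ℕ,
    IsFactor I z w ∧ (∀ i ∈ I, z i ∈ w) ∧ d = wordDefect I z}

open Pool.Agent.R572.Defect (cst ext ELeft)

theorem defect_eq (w : List ℕ) : defect w = cst w :=
  Pool.Agent.R572.Defect.defect_eq_cst w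

theorem defect_reverse (w : List ℕ) : defect w.reverse = defect w := by
  rw [defect_eq, defect_eq, Pool.Agent.R572.Defect.cst_reverse]

theorem le_wordDefect {I : Set ℤ} {z : ℤ → ℕ} {u : List ℕ} (h : IsFactor I z u) :
    (defect u : ℕ∞) ≤ wordDefect I z :=
  le_iSup₂ (f := fun (u : List ℕ) (_ : u ∈ {u : List ℕ | IsFactor I z u}) => (defect u : ℕ∞)) u h

theorem wordDefect_le {I : Set ℤ} {z : ℤ → ℕ} {k : ℕ∞}
    (h : ∀ u, IsFactor I z u → (defect u : ℕ∞) ≤ k) : wordDefect I z ≤ k :=
  iSup₂_le h

/-- Mirror image. -/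
theorem IsFactor.mirror {I J : Set ℤ} {z : ℤ → ℕ} {u : List ℕ} (hIJ : ∀ i, i ∈ I → -1 - i ∈ J)
    (h : IsFactor I z u) : IsFactor J (fun i => z (-1 - i)) u.reverse := by
  obtain ⟨i, hi⟩ := h
  refine ⟨-i - u.length, fun j hj => ?_⟩
  rw [List.length_reverse] at hj
  have h1 := hi (u.length - 1 - j) (by omega)
  have e : i + ((u.length - 1 - j : ℕ) : ℤ) = -1 - (-i - u.length + j) := by
    omega
  refine ⟨?_, ?_⟩
  · have := hIJ _ h1.1
    rw [e] at this
    simpa using this
  · rw [List.getElem_reverse, h1.2, e]

/-- The left-infinite word `... z₁ z₀ w`, its last letter at position `-1`. -/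
def ZL (z : ℕ → ℕ) (w : List ℕ) (i : ℤ) : ℕ := (ext z w (-i).toNat).getD w.length 0

theorem ZL_eq (z : ℕ → ℕ) (w : List ℕ) (n j : ℕ) (hj : j < n) :
    ZL z w (-(n : ℤ) + j) = (ext z w n).getD (w.length + j) 0 := by
  have e : (-(-(n : ℤ) + j)).toNat = n - j := by omega
  rw [ZL, e, ← Pool.Agent.R572.Defect.ext_drop z w n j hj.le]
  simp only [List.getD_eq_getElem?_getD, List.getElem?_drop]
  rw [Nat.add_comm]

theorem ZL_factor (z : ℕ → ℕ) (w u : List ℕ) (h : IsFactor (Set.Iio 0) (ZL z w) u) :
    ∃ n, u <:+: ext z w n := by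
  obtain ⟨i, hi⟩ := h
  rcases Nat.eq_zero_or_pos u.length with h0 | h0
  · exact ⟨0, by rw [List.length_eq_zero_iff.1 h0]; exact List.nil_infix⟩
  · have h1 := (hi (u.length - 1) (by omega)).1
    simp only [Set.mem_Iio] at h1
    obtain ⟨n, hn⟩ : ∃ n : ℕ, (n : ℤ) = -i := ⟨(-i).toNat, by omega⟩
    have hun : u.length ≤ n := by omega
    refine ⟨n, ?_⟩
    have : u = ((ext z w n).drop w.length).take u.length := by
      apply List.ext_getElem
      · rw [List.length_take, List.length_drop, Pool.Agent.R572.Defect.ext_length]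
        omega
      · intro j h2 h3
        rw [(hi j h2).2, show i + (j : ℤ) = -(n : ℤ) + j by omega, ZL_eq z w n j (by omega)]
        rw [List.getElem_take, List.getElem_drop, List.getD_eq_getElem]
    rw [this]
    exact (List.take_prefix _ _).isInfix.trans (List.drop_suffix _ _).isInfix

theorem ZL_isFactor (z : ℕ → ℕ) (w : List ℕ) : IsFactor (Set.Iio 0) (ZL z w) w := by
  refine ⟨-(w.length : ℤ), fun j hj => ⟨?_, ?_⟩⟩
  · simp only [Set.mem_Iio]; omega
  · rw [ZL_eq z w w.length j hj]
    have h := Pool.Agent.R572.Defect.ext_drop z w w.length w.length le_rfl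
    rw [Nat.sub_self] at h
    have h2 : ((ext z w w.length).drop w.length).getD j 0 = w.getD j 0 := by rw [h]; rfl
    rw [List.getD_eq_getElem?_getD, List.getElem?_drop, ← List.getD_eq_getElem?_getD] at h2
    rw [h2, List.getD_eq_getElem _ _ hj]

theorem ZL_mem (z : ℕ → ℕ) (w : List ℕ) (hz : ∀ i, z i ∈ w) : ∀ i ∈ Set.Iio (0 : ℤ),
    ZL z w i ∈ w := by
  intro i hi
  simp only [Set.mem_Iio] at hi
  have hl : w.length < (ext z w (-i).toNat).length := by
    rw [Pool.Agent.R572.Defect.ext_length]; omega
  rw [ZL, List.getD_eq_getElem _ _ hl]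
  exact Pool.Agent.R572.Defect.ext_mem z w hz _ _ (List.getElem_mem hl)

theorem le_of_eleft {w : List ℕ} {k : ℕ} (h : ELeft w k) : infiniteDefect w ≤ k := by
  obtain ⟨z, hz, hk⟩ := h
  refine le_trans (sInf_le ⟨Set.Iio 0, by simp [indexSets], ZL z w, ZL_isFactor z w,
    ZL_mem z w hz, rfl⟩) (wordDefect_le fun u hu => ?_)
  obtain ⟨n, hn⟩ := ZL_factor z w u hu
  rw [defect_eq]
  exact_mod_cast (Pool.Agent.R572.Defect.cst_mono hn).trans (hk n)

theorem le_of_eleft_reverse {w : List ℕ} {k : ℕ} (h : ELeft w.reverse k) :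
    infiniteDefect w ≤ k := by
  obtain ⟨z, hz, hk⟩ := h
  have hf := (ZL_isFactor z w.reverse).mirror (J := Set.Ici 0) (by
    intro i hi
    simp only [Set.mem_Iio] at hi
    simp only [Set.mem_Ici]
    omega)
  rw [List.reverse_reverse] at hf
  refine le_trans (sInf_le ⟨Set.Ici 0, by simp [indexSets], _, hf, ?_, rfl⟩)
    (wordDefect_le fun u hu => ?_)
  · intro i hi
    simp only [Set.mem_Ici] at hi
    have := ZL_mem z w.reverse hz (-1 - i) (by simp only [Set.mem_Iio]; omega)
    simpa using this
  · have h2 := hu.mirror (J := Set.Iio 0) (by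
      intro i hi
      simp only [Set.mem_Ici] at hi
      simp only [Set.mem_Iio]
      omega)
    have e : (fun i : ℤ => (fun i : ℤ => ZL z w.reverse (-1 - i)) (-1 - i)) =
        ZL z w.reverse := by
      funext i
      simp only
      congr 1
      ring
    rw [e] at h2
    obtain ⟨n, hn⟩ := ZL_factor z w.reverse u.reverse h2
    rw [← defect_reverse, defect_eq]
    exact_mod_cast (Pool.Agent.R572.Defect.cst_mono hn).trans (hk n)

theorem eleft_of_word {I : Set ℤ} {z : ℤ → ℕ} {w : List ℕ} {k : ℕ} (hw : w ≠ [])
    (hI : ∀ i ∈ I, i - 1 ∈ I) (hf : IsFactor I z w) (hz : ∀ i ∈ I, z i ∈ w)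
    (hk : wordDefect I z ≤ k) : ELeft w k := by
  obtain ⟨i, hi⟩ := hf
  have hl : 0 < w.length := List.length_pos_iff.2 hw
  have hi0 : i ∈ I := by simpa using (hi 0 hl).1
  have hdown : ∀ n : ℕ, i - n ∈ I := by
    intro n
    induction n with
    | zero => simpa using hi0
    | succ n ih =>
      have := hI _ ih
      rw [show i - ((n + 1 : ℕ) : ℤ) = i - n - 1 by push_cast; ring]
      exact this
  refine ⟨fun n => z (i - ((n + 1 : ℕ) : ℤ)), fun n => hz _ (hdown (n + 1)), fun n => ?_⟩
  have hfac : ∀ n : ℕ, ∀ (j : ℕ) (h : j < (ext (fun n => z (i - ((n + 1 : ℕ) : ℤ))) w n).length),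
      i - n + j ∈ I ∧ (ext (fun n => z (i - ((n + 1 : ℕ) : ℤ))) w n)[j] = z (i - n + j) := by
    intro n
    induction n with
    | zero =>
      intro j hj
      change i - ((0 : ℕ) : ℤ) + j ∈ I ∧ w[j] = z (i - ((0 : ℕ) : ℤ) + j)
      rw [Nat.cast_zero, sub_zero]
      exact hi j hj
    | succ n ih =>
      intro j hj
      rcases j with _ | j
      · refine ⟨by simpa using hdown (n + 1), ?_⟩
        simp [ext]
      · have hj' : j < (ext (fun n => z (i - ((n + 1 : ℕ) : ℤ))) w n).length := by
          simpa [ext] using hj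
        have e : i - ((n + 1 : ℕ) : ℤ) + ((j + 1 : ℕ) : ℤ) = i - n + j := by push_cast; ring
        rw [e]
        exact ih j hj'
  have h1 : (defect (ext (fun n => z (i - ((n + 1 : ℕ) : ℤ))) w n) : ℕ∞) ≤ k :=
    (le_wordDefect ⟨i - n, hfac n⟩).trans hk
  rw [defect_eq] at h1
  exact_mod_cast h1

theorem eleft_of_le {w : List ℕ} (hw : w ≠ []) {k : ℕ} (h : infiniteDefect w ≤ k) :
    ELeft w k ∨ ELeft w.reverse k := by
  have hne : {d | ∃ I ∈ indexSets, ∃ z : ℤ → ℕ,
      IsFactor I z w ∧ (∀ i ∈ I, z i ∈ w) ∧ d = wordDefect I z}.Nonempty := by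
    by_contra hcon
    rw [Set.not_nonempty_iff_eq_empty] at hcon
    rw [infiniteDefect, hcon, sInf_empty] at h
    exact absurd h (by simp)
  obtain ⟨I, hI, z, hf, hz, hd⟩ := csInf_mem hne
  have hk : wordDefect I z ≤ k := by rw [← hd]; exact h
  simp only [indexSets, Set.mem_insert_iff, Set.mem_singleton_iff] at hI
  rcases hI with rfl | rfl | rfl
  · right
    refine eleft_of_word (I := Set.Iio 0) (z := fun i => z (-1 - i)) (by simpa using hw) ?_
      (hf.mirror ?_) ?_ ?_
    · intro i hi
      simp only [Set.mem_Iio] at hi ⊢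
      omega
    · intro i hi
      simp only [Set.mem_Ici] at hi
      simp only [Set.mem_Iio]
      omega
    · intro i hi
      simp only [Set.mem_Iio] at hi
      rw [List.mem_reverse]
      apply hz
      simp only [Set.mem_Ici]
      omega
    · refine wordDefect_le fun u hu => ?_
      have h2 := hu.mirror (J := Set.Ici 0) (by
        intro i hi
        simp only [Set.mem_Iio] at hi
        simp only [Set.mem_Ici]
        omega)
      have e : (fun i : ℤ => (fun i : ℤ => z (-1 - i)) (-1 - i)) = z := by
        funext i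
        simp only
        congr 1
        ring
      rw [e] at h2
      rw [← defect_reverse]
      exact (le_wordDefect h2).trans hk
  · left
    refine eleft_of_word hw ?_ hf hz hk
    intro i hi
    simp only [Set.mem_Iio] at hi ⊢
    omega
  · left
    exact eleft_of_word hw (fun i _ => Set.mem_univ _) hf hz hk

/-- Repeating a letter forever adds at most `|w|` to the defect. -/
theorem eleft_exists (w : List ℕ) (hw : w ≠ []) : ELeft w w.length := by
  obtain ⟨a, ha⟩ := List.exists_mem_of_ne_nil w hw
  refine ⟨fun _ => a, fun _ => ha, fun n => ?_⟩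
  have hext : ext (fun _ => a) w n = List.replicate n a ++ w := by
    induction n with
    | zero => rfl
    | succ n ih => rw [ext, ih]; rfl
  have h1 := Pool.Agent.R572.Defect.ncard_add_cst (ext (fun _ => a) w n)
  have h2 : n + 1 ≤ (Pool.Agent.R572.Defect.palFactors (ext (fun _ => a) w n)).ncard := by
    have h3 : ((fun i => List.replicate i a) '' (Set.Iio (n + 1))).ncard = n + 1 := by
      rw [Set.ncard_image_of_injective _ (List.replicate_left_injective a),
        Set.ncard_eq_toFinset_card']
      simp
    rw [← h3]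
    apply Set.ncard_le_ncard _ (Pool.Agent.R572.Defect.palFactors_finite _)
    rintro _ ⟨i, hi, rfl⟩
    refine ⟨?_, by simp⟩
    rw [hext]
    simp only [Set.mem_Iio] at hi
    refine List.IsInfix.trans ?_ (List.prefix_append _ _).isInfix
    refine ⟨List.replicate (n - i) a, [], ?_⟩
    rw [List.append_nil, ← List.replicate_add]
    congr 1
    omega
  rw [Pool.Agent.R572.Defect.ext_length] at h1
  omega

/-- There is an algorithm which computes the infinite defect of every nonempty finite word. -/
theorem result : ∃ F : List ℕ → ℕ, Computable F ∧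
    ∀ w : List ℕ, w ≠ [] → infiniteDefect w = (F w : ℕ∞) := by
  classical
  have hc : ComputablePred (fun p : List ℕ × ℕ =>
      p.1 = [] ∨ ELeft p.1 p.2 ∨ ELeft p.1.reverse p.2) := by
    have h1 : Computable (fun p : List ℕ × ℕ => decide (ELeft p.1 p.2)) :=
      Pool.Agent.R572.Defect.eleft_computable.decide
    have h2 : Computable (fun p : List ℕ × ℕ => decide (ELeft p.1.reverse p.2)) :=
      h1.comp (Computable.pair
        (Primrec.list_reverse.comp Primrec.fst).to_comp Primrec.snd.to_comp)
    have h3 : Computable (fun p : List ℕ × ℕ => decide (p.1 = [])) :=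
      (PrimrecPred.computablePred
        (Primrec.eq.comp Primrec.fst (Primrec.const ([] : List ℕ)))).decide
    refine Computable.computablePred ?_
    refine (Primrec.or.to_comp.comp h3 (Primrec.or.to_comp.comp h1 h2)).of_eq fun p => ?_
    simp
  have hex : ∀ w : List ℕ, ∃ k, (w = [] ∨ ELeft w k ∨ ELeft w.reverse k) := by
    intro w
    by_cases hw : w = []
    · exact ⟨0, Or.inl hw⟩
    · exact ⟨w.length, Or.inr (Or.inl (eleft_exists w hw))⟩
  refine ⟨fun w => Nat.find (hex w), Computable.find (P := fun w k =>
    w = [] ∨ ELeft w k ∨ ELeft w.reverse k) hc hex, fun w hw => ?_⟩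
  apply le_antisymm
  · rcases Nat.find_spec (hex w) with h | h | h
    · exact absurd h hw
    · exact le_of_eleft h
    · exact le_of_eleft_reverse h
  · rcases hm : infiniteDefect w with _ | m
    · exact le_top
    · have h1 := eleft_of_le hw (k := m) (le_of_eq hm)
      change ((Nat.find (hex w) : ℕ) : ℕ∞) ≤ (m : ℕ∞)
      exact_mod_cast Nat.find_min' (hex w) (Or.inr h1)

end Pool.Agent.Results.MP_a1720d_lc.DefectComputable
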